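import Pool.Agent.Lib.helper26.Dih

namespace Pool.Agent.Results.MP_bb6540_pr.Dihedral
open Pool.Agent.Lib.helper26.Dih Filter Topology Real

theorem result : ∃ (G : ℕ → Type) (_ : ∀ a, Group (G a)) (_ : ∀ a, Fintype (G a)) (k : ℕ → ℕ),
    Tendsto (fun a => Fintype.card (G a)) atTop atTop ∧
    Tendsto (fun a => log (k a)) atTop atTop ∧
    Tendsto (fun a => log (k a) / log (Fintype.card (G a))) atTop (𝓝 0) ∧
    (∀ a, Group.IsNilpotent (G a)) ∧
    Tendsto (fun a => log (Nat.card (Abelianization (G a))) / k a) atTop (𝓝 0) ∧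
    (∀ᶠ a in atTop, ∀ Z : Fin (k a) → G a, 1 / 4 ≤ d Z ((1 + 1 / 2) * tstar (G a) (k a))) ∧
    ¬ Cutoff G k fun a => tstar (G a) (k a) :=
  ⟨D, _, _, K, tcard, tK, tKD,
    nil, squeeze_zero (fun _ => div_nonneg (log_natCast_nonneg _) (Nat.cast_nonneg _)) (fun a => by
      gcongr
      · exact_mod_cast Nat.card_pos
      · exact_mod_cast Nat.card_eq_fintype_card (α := D a) ▸
          Nat.card_le_card_of_surjective _ Quot.mk_surjective) tDK,
    (eventually_ge_atTop 4).mono fun _ => far, not_cutoff⟩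

end Pool.Agent.Results.MP_bb6540_pr.Dihedral
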